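import Mathlib
import Pool.Agent.Shared.PolyTime.Typed

/-!
The tableau formula of a finite machine with stacks that makes one stack operation per step.
-/

set_option autoImplicit false

namespace Pool.Agent.Shared.NP

open Pool.Agent.Shared.PolyTime Function

/-- A literal `(b, v)` is true when the variable `v` has the value `b`. -/
abbrev Lit : Type := Bool × ℕ
/-- Clauses with three literals. -/
abbrev Cl3 : Type := Lit × Lit × Lit
/-- Formulas in 3-CNF. -/
abbrev CNF3 : Type := List Cl3

/-- Satisfiability of a 3-CNF formula. -/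
def Sat3 (φ : CNF3) : Prop :=
  ∃ asg : ℕ → Bool, ∀ c ∈ φ, asg c.1.2 = c.1.1 ∨ asg c.2.1.2 = c.2.1.1 ∨ asg c.2.2.2 = c.2.2.1

/-- Coded rules. -/
abbrev RuleC : Type := (ℕ × ℕ × ℕ) × (ℕ × ℕ × ℕ) × (ℕ × ℕ × ℕ)

/-- Index of the variable for time `t`, position `j` and atom `a`. -/
def ix (C T t j a : ℕ) : ℕ := (t * (T + 2) + j) * C + a

/-- Unit clause. -/
def unitC (b : Bool) (v : ℕ) : Cl3 := ((b, v), (b, v), (b, v))

/-- First clause for the input at position `j`. -/
def inC1 (C cT cF cN : ℕ) (x : List Bool) (P T j : ℕ) : Cl3 :=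
  bif Nat.blt j x.length then unitC true (ix C T 0 j (bif x.getD j false then cT else cF))
  else bif Nat.blt j (x.length + P) then
    ((true, ix C T 0 j cT), (true, ix C T 0 j cF), (true, ix C T 0 j cN))
  else unitC true (ix C T 0 j cN)

/-- Second clause for the input at position `j`. -/
def inC2 (C cT cF cN : ℕ) (x : List Bool) (P T j : ℕ) : Cl3 :=
  bif Nat.blt j x.length then inC1 C cT cF cN x P T j
  else ((false, ix C T 0 j cN), (false, ix C T 0 j cN), (true, ix C T 0 (j + 1) cN))

/-- The clause of a rule at time `t` and position `j`. -/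
def ruleCl (C T t j : ℕ) (r : RuleC) : Cl3 :=
  ((false, ix C T t (r.1.1 * j + r.1.2.1) r.1.2.2),
   (false, ix C T t (r.2.1.1 * j + r.2.1.2.1) r.2.1.2.2),
   (true, ix C T (t + 1) (r.2.2.1 * j + r.2.2.2.1) r.2.2.2.2))

/-- The tableau formula. -/
def tabF (C : ℕ) (rules : List RuleC) (base : List ℕ) (cT cF cN : ℕ) (rej : List ℕ)
    (x : List Bool) (P T : ℕ) : CNF3 :=
  (List.range (T + 1)).flatMap (fun j => base.map (fun a => unitC true (ix C T 0 j a)) ++
      [inC1 C cT cF cN x P T j, inC2 C cT cF cN x P T j]) ++
  (List.range T).flatMap (fun t => (List.range (T + 1)).flatMap (fun j =>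
      rules.map (ruleCl C T t j))) ++
  rej.map (fun a => unitC false (ix C T T 0 a))

theorem tabF_pf (C : ℕ) (rules : List RuleC) (base : List ℕ) (cT cF cN : ℕ) (rej : List ℕ) :
    PF (fun p : List Bool × ℕ × ℕ => tabF C rules base cT cF cN rej p.1 p.2.1 p.2.2) := by
  unfold tabF ruleCl inC2 inC1 unitC ix
  fun_prop

theorem ix_inj {C T t j a t' j' a' : ℕ} (ha : a < C) (ha' : a' < C) (hj : j < T + 2)
    (hj' : j' < T + 2) (h : ix C T t j a = ix C T t' j' a') : t = t' ∧ j = j' ∧ a = a' := by
  unfold ix at h
  have h1 : a = a' := by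
    have := congrArg (· % C) h
    simpa [Nat.mul_add_mod_of_lt, Nat.mod_eq_of_lt, ha, ha'] using this
  subst h1
  have h2 : t * (T + 2) + j = t' * (T + 2) + j' :=
    Nat.eq_of_mul_eq_mul_right (by omega : 0 < C) (by omega)
  have h3 : j = j' := by
    have := congrArg (· % (T + 2)) h2
    simpa [Nat.mul_add_mod_of_lt, Nat.mod_eq_of_lt, hj, hj'] using this
  subst h3
  exact ⟨Nat.eq_of_mul_eq_mul_right (by omega : 0 < T + 2) (by omega), rfl, rfl⟩

/-- Machines with one stack operation per step. -/
structure AM (Z K A : Type) where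
  /-- next state, from the state and the top of the current stack -/
  δ : Z → Option A → Z
  /-- the current stack -/
  kk : Z → K
  /-- nothing, pop or push -/
  op : Z → Option (Option A)

namespace AM

variable {Z K A : Type} [DecidableEq K] (M : AM Z K A)

/-- the new stacks -/
def upd (z : Z) (S : K → List A) : K → List A :=
  match M.op z with
  | none => S
  | some none => update S (M.kk z) (S (M.kk z)).tail
  | some (some b) => update S (M.kk z) (b :: S (M.kk z))

/-- one step -/
def step (c : Z × (K → List A)) : Z × (K → List A) :=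
  (M.δ c.1 (c.2 (M.kk c.1)).head?, M.upd c.1 c.2)

end AM

/-- Atoms: a state, or the content of a cell. -/
abbrev Atom (Z K A : Type) : Type := Z ⊕ (K × Option A)

/-- Truth of an atom at position `j` of a configuration. -/
def holds {Z K A : Type} (c : Z × (K → List A)) (j : ℕ) : Atom Z K A → Prop
  | Sum.inl z => c.1 = z
  | Sum.inr (k, o) => (c.2 k)[j]? = o

/-- Shapes of literals in rules. -/
abbrev RLit (Z K A : Type) : Type := Bool × Bool × Atom Z K A

/-- The position of a literal of a rule applied at `j`. -/
def pos {Z K A : Type} (p : RLit Z K A) (j : ℕ) : ℕ := p.1.toNat * j + p.2.1.toNat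

theorem pos_le {Z K A : Type} (p : RLit Z K A) (j : ℕ) : pos p j ≤ j + 1 := by
  rcases p with ⟨_ | _, _ | _, a⟩ <;> simp [pos]

/-- Valid rules. -/
def Valid {Z K A : Type} [DecidableEq K] (M : AM Z K A)
    (r : RLit Z K A × RLit Z K A × RLit Z K A) : Prop :=
  ∀ c j, holds c (pos r.1 j) r.1.2.2 → holds c (pos r.2.1 j) r.2.1.2.2 →
    holds (M.step c) (pos r.2.2 j) r.2.2.2.2

theorem exists_rule {Z K A : Type} [DecidableEq K] (M : AM Z K A) (c : Z × (K → List A)) (j' : ℕ)
    (a : Atom Z K A) (h : holds (M.step c) j' a) :
    ∃ r j, Valid M r ∧ j ≤ j' ∧ pos r.2.2 j = j' ∧ r.2.2.2.2 = a ∧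
      holds c (pos r.1 j) r.1.2.2 ∧ holds c (pos r.2.1 j) r.2.1.2.2 := by
  rcases a with z | ⟨k, o⟩
  · refine ⟨((false, false, Sum.inl c.1), (false, false, Sum.inr (M.kk c.1, (c.2 (M.kk c.1))[0]?)),
      (true, false, Sum.inl z)), j', ?_, le_rfl, by simp [pos], rfl, rfl, by simp [pos, holds]⟩
    intro c' j h1 h2
    simp only [holds, pos, Bool.toNat_false, zero_mul, add_zero, AM.step] at h h1 h2 ⊢
    rw [← h, h1, List.head?_eq_getElem?, List.head?_eq_getElem?, h2]
  · have same : (∀ S : K → List A, M.upd c.1 S k = S k) → ∃ r j, Valid M r ∧ j ≤ j' ∧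
        pos r.2.2 j = j' ∧ r.2.2.2.2 = Sum.inr (k, o) ∧
        holds c (pos r.1 j) r.1.2.2 ∧ holds c (pos r.2.1 j) r.2.1.2.2 := by
      intro hS
      refine ⟨((false, false, Sum.inl c.1), (true, false, Sum.inr (k, o)),
        (true, false, Sum.inr (k, o))), j', ?_, le_rfl, by simp [pos], rfl, rfl, ?_⟩
      · intro c' j h1 h2
        simp only [holds, AM.step] at h1 h2 ⊢
        rw [h1, hS, h2]
      · simp only [holds, AM.step, hS] at h
        simpa [pos, holds] using h
    by_cases hk : k = M.kk c.1
    · subst hk
      rcases hop : M.op c.1 with _ | _ | b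
      · exact same fun S => by simp [AM.upd, hop]
      · refine ⟨((false, false, Sum.inl c.1), (true, true, Sum.inr (M.kk c.1, o)),
          (true, false, Sum.inr (M.kk c.1, o))), j', ?_, le_rfl, by simp [pos], rfl, rfl, ?_⟩
        · intro c' j h1 h2
          simp only [holds, AM.step] at h1 h2 ⊢
          rw [h1]
          simpa [AM.upd, hop, pos] using h2
        · simpa [holds, AM.step, AM.upd, hop, pos] using h
      · rcases j' with _ | j'
        · refine ⟨((false, false, Sum.inl c.1), (false, false, Sum.inl c.1),
            (false, false, Sum.inr (M.kk c.1, o))), 0, ?_, le_rfl, by simp [pos], rfl, rfl, rfl⟩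
          intro c' j h1 _
          simp only [holds, AM.step] at h h1 ⊢
          rw [h1]
          simpa [AM.upd, hop, pos] using h
        · refine ⟨((false, false, Sum.inl c.1), (true, false, Sum.inr (M.kk c.1, o)),
            (true, true, Sum.inr (M.kk c.1, o))), j', ?_, by omega, by simp [pos], rfl, rfl, ?_⟩
          · intro c' j h1 h2
            simp only [holds, AM.step] at h1 h2 ⊢
            rw [h1]
            simpa [AM.upd, hop, pos] using h2
          · simpa [holds, AM.step, AM.upd, hop, pos] using h
    · refine same fun S => ?_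
      unfold AM.upd
      rcases M.op c.1 with _ | _ | b
      · rfl
      · exact update_of_ne hk _ _
      · exact update_of_ne hk _ _

/-- The initial configuration. -/
def initC {Z K A : Type} [DecidableEq K] (z₀ : Z) (k₀ : K) (ι : Bool → A) (w : List Bool) :
    Z × (K → List A) := (z₀, fun k => if k = k₀ then w.map ι else [])

theorem tableau {Z K A : Type} [DecidableEq K] [Fintype Z] [Fintype K] [Fintype A] (M : AM Z K A)
    (z₀ : Z) (k₀ k₁ : K) (ι : Bool → A) (Bad : Option A → Prop) :
    ∃ Φ : List Bool × ℕ × ℕ → CNF3, PF Φ ∧ ∀ (x : List Bool) (P T : ℕ), Sat3 (Φ (x, P, T)) ↔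
      ∃ y : List Bool, y.length ≤ P ∧
        ¬ Bad (((M.step^[T] (initC z₀ k₀ ι (x ++ y))).2 k₁)[0]?) := by
  classical
  let C := Fintype.card (Atom Z K A)
  let cd : Atom Z K A → ℕ := fun a => (Fintype.equivFin (Atom Z K A) a).val
  have cd_lt : ∀ a, cd a < C := fun a => (Fintype.equivFin (Atom Z K A) a).2
  have cd_inj : ∀ a b, cd a = cd b → a = b := fun a b h =>
    (Fintype.equivFin (Atom Z K A)).injective (Fin.ext h)
  let cl : RLit Z K A → ℕ × ℕ × ℕ := fun p => (p.1.toNat, p.2.1.toNat, cd p.2.2)
  let rules : List RuleC := (Finset.univ.filter (Valid M)).toList.map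
    fun r => (cl r.1, cl r.2.1, cl r.2.2)
  let base : List ℕ := (Finset.univ.filter fun a : Atom Z K A =>
    ∀ w j, holds (initC z₀ k₀ ι w) j a).toList.map cd
  let rej : List ℕ := (Finset.univ.filter Bad).toList.map fun o => cd (Sum.inr (k₁, o))
  let aT : Atom Z K A := Sum.inr (k₀, some (ι true))
  let aF : Atom Z K A := Sum.inr (k₀, some (ι false))
  let aN : Atom Z K A := Sum.inr (k₀, none)
  have hold0 : ∀ w j o, holds (initC z₀ k₀ ι w) j (Sum.inr (k₀, o)) ↔ (w[j]?).map ι = o := by
    intro w j o
    simp [holds, initC]
  refine ⟨_, tabF_pf C rules base (cd aT) (cd aF) (cd aN) rej, fun x P T => ⟨?_, ?_⟩⟩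
  · rintro ⟨asg, hs⟩
    simp only [tabF, List.mem_append, List.mem_flatMap, List.mem_range, List.mem_map,
      List.mem_cons, List.not_mem_nil, or_false] at hs
    have hbase : ∀ j, j ≤ T → ∀ a, (∀ w j, holds (initC z₀ k₀ ι w) j a) →
        asg (ix C T 0 j (cd a)) = true := by
      intro j hj a ha
      have := hs (unitC true (ix C T 0 j (cd a))) (Or.inl (Or.inl ⟨j, by omega, Or.inl
        ⟨cd a, List.mem_map.2 ⟨a, by simpa using ha, rfl⟩, rfl⟩⟩))
      simpa [unitC] using this
    have h1 := fun j (hj : j ≤ T) => hs (inC1 C (cd aT) (cd aF) (cd aN) x P T j)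
      (Or.inl (Or.inl ⟨j, by omega, Or.inr (Or.inl rfl)⟩))
    have h2 := fun j (hj : j ≤ T) => hs (inC2 C (cd aT) (cd aF) (cd aN) x P T j)
      (Or.inl (Or.inl ⟨j, by omega, Or.inr (Or.inr rfl)⟩))
    have hex : ∃ i, i = P ∨ asg (ix C T 0 (x.length + i) (cd aN)) = true := ⟨P, Or.inl rfl⟩
    have hm1 := Nat.find_spec hex
    have hm2 : ∀ i, i < Nat.find hex →
        ¬ (i = P ∨ asg (ix C T 0 (x.length + i) (cd aN)) = true) := fun i hi => Nat.find_min hex hi
    have hm3 : Nat.find hex ≤ P := Nat.find_min' hex (Or.inl rfl)
    generalize Nat.find hex = m at hm1 hm2 hm3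
    let y : List Bool := (List.range m).map fun i => asg (ix C T 0 (x.length + i) (cd aT))
    have hN : ∀ i, x.length + m + i ≤ T → asg (ix C T 0 (x.length + m + i) (cd aN)) = true := by
      intro i
      induction i with
      | zero =>
        intro hi
        rcases hm1 with rfl | h
        · have := h1 _ hi
          simpa [inC1, unitC, Nat.blt_eq, Bool.cond_eq_ite] using this
        · exact h
      | succ i ih =>
        intro hi
        have h3 := ih (by omega)
        have h4 := h2 (x.length + m + i) (by omega)
        have h5 : ¬ (x.length + m + i < x.length) := by omega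
        simp only [inC2, Nat.blt_eq, Bool.cond_eq_ite, h5, if_false, h3, Bool.true_eq_false,
          false_or] at h4
        exact h4
    have inv : ∀ t j a, j + t ≤ T → holds (M.step^[t] (initC z₀ k₀ ι (x ++ y))) j a →
        asg (ix C T t j (cd a)) = true := by
      intro t
      induction t with
      | zero =>
        intro j a hj ha
        simp only [iterate_zero, id] at ha
        rcases a with z | ⟨k, o⟩
        · exact hbase j (by omega) _ fun w j => ha
        · by_cases hk : k = k₀
          · subst hk
            rw [hold0] at ha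
            subst ha
            have h3 := h1 j (by omega)
            by_cases hx : j < x.length
            · rw [List.getElem?_append_left hx, List.getElem?_eq_getElem hx]
              simp only [inC1, unitC, Nat.blt_eq, Bool.cond_eq_ite, hx, if_true, or_self,
                List.getD_eq_getElem?_getD, List.getElem?_eq_getElem hx, Option.getD_some] at h3
              cases hb : x[j] <;> simpa [hb] using h3
            · rw [List.getElem?_append_right (by omega)]
              by_cases hy : j < x.length + m
              · have h4 := hm2 (j - x.length) (by omega)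
                have e : x.length + (j - x.length) = j := by omega
                rw [e] at h4
                have h5 : j < x.length + P := by omega
                have h6 : y[j - x.length]? = some (asg (ix C T 0 j (cd aT))) := by
                  simp only [y, List.getElem?_map]
                  rw [List.getElem?_range (by omega)]
                  simp [e]
                rw [h6]
                simp only [inC1, Nat.blt_eq, Bool.cond_eq_ite, hx, h5, if_true, if_false] at h3
                cases hb : asg (ix C T 0 j (cd aT))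
                · simp only [hb, Bool.false_eq_true, false_or] at h3
                  exact h3.resolve_right fun h => h4 (Or.inr h)
                · exact hb
              · rw [List.getElem?_eq_none (by simp [y]; omega)]
                have := hN (j - (x.length + m)) (by omega)
                rwa [show x.length + m + (j - (x.length + m)) = j by omega] at this
          · refine hbase j (by omega) _ fun w j' => ?_
            simp only [holds, initC, hk, if_false] at ha ⊢
            simpa using ha
      | succ t ih =>
        intro j' a hj ha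
        rw [iterate_succ_apply'] at ha
        obtain ⟨r, j, hv, hjj, e1, e2, p1, p2⟩ := exists_rule M _ j' a ha
        have q1 := ih _ _ (by have := pos_le r.1 j; omega) p1
        have q2 := ih _ _ (by have := pos_le r.2.1 j; omega) p2
        have := hs (ruleCl C T t j (cl r.1, cl r.2.1, cl r.2.2)) (Or.inl (Or.inr ⟨t, by omega, j,
          by omega, _, List.mem_map.2 ⟨r, by simpa using hv, rfl⟩, rfl⟩))
        simp only [ruleCl, cl] at this
        unfold pos at q1 q2 e1
        rw [q1, q2, e1, e2] at this
        simpa using this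
    refine ⟨y, by simpa [y] using hm3, fun hb => ?_⟩
    have h3 := inv T 0 (Sum.inr (k₁, _)) (by omega) rfl
    have h4 := hs (unitC false (ix C T T 0 (cd (Sum.inr (k₁, _))))) (Or.inr ⟨_,
      List.mem_map.2 ⟨_, by simpa using hb, rfl⟩, rfl⟩)
    simp only [unitC, or_self] at h4
    rw [h3] at h4
    exact absurd h4 (by simp)
  · rintro ⟨y, hy, hb⟩
    let asg : ℕ → Bool := fun v => decide (∃ t j a, j < T + 2 ∧ v = ix C T t j (cd a) ∧
      holds (M.step^[t] (initC z₀ k₀ ι (x ++ y))) j a)
    have ha : ∀ t j a, j < T + 2 → (asg (ix C T t j (cd a)) = true ↔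
        holds (M.step^[t] (initC z₀ k₀ ι (x ++ y))) j a) := by
      intro t j a hj
      simp only [asg, decide_eq_true_eq]
      constructor
      · rintro ⟨t', j', a', hj', e, h⟩
        obtain ⟨rfl, rfl, e'⟩ := ix_inj (cd_lt _) (cd_lt _) hj hj' e
        rwa [cd_inj _ _ e']
      · exact fun h => ⟨t, j, a, hj, rfl, h⟩
    have ha0 : ∀ j o, j < T + 2 → (asg (ix C T 0 j (cd (Sum.inr (k₀, o)))) = true ↔
        ((x ++ y)[j]?).map ι = o) := fun j o hj => by rw [ha 0 j _ hj, ← hold0]; rfl
    have hc1 : ∀ j, j < T + 1 → let c := inC1 C (cd aT) (cd aF) (cd aN) x P T j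
        asg c.1.2 = c.1.1 ∨ asg c.2.1.2 = c.2.1.1 ∨ asg c.2.2.2 = c.2.2.1 := by
      intro j hj
      by_cases hx : j < x.length
      · simp only [inC1, unitC, Nat.blt_eq, Bool.cond_eq_ite, hx, if_true, or_self,
          List.getD_eq_getElem?_getD, List.getElem?_eq_getElem hx, Option.getD_some]
        cases hb : x[j]
        · simp only [Bool.false_eq_true, if_false]
          rw [ha0 j _ (by omega), List.getElem?_append_left hx, List.getElem?_eq_getElem hx, hb]
          rfl
        · simp only [if_true]
          rw [ha0 j _ (by omega), List.getElem?_append_left hx, List.getElem?_eq_getElem hx, hb]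
          rfl
      · by_cases h5 : j < x.length + P
        · simp only [inC1, Nat.blt_eq, Bool.cond_eq_ite, hx, h5, if_true, if_false]
          rw [ha0 j _ (by omega), ha0 j _ (by omega), ha0 j _ (by omega)]
          rcases (x ++ y)[j]? with _ | _ | _ <;> simp
        · simp only [inC1, unitC, Nat.blt_eq, Bool.cond_eq_ite, hx, h5, if_false, or_self]
          rw [ha0 j _ (by omega), List.getElem?_eq_none (by simp; omega)]
          rfl
    refine ⟨asg, fun c hc => ?_⟩
    simp only [tabF, List.mem_append, List.mem_flatMap, List.mem_range, List.mem_map,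
      List.mem_cons, List.not_mem_nil, or_false] at hc
    rcases hc with (⟨j, hj, ⟨a, ha', rfl⟩ | rfl | rfl⟩ | ⟨t, ht, j, hj, r, hr, rfl⟩) | ⟨a, ha', rfl⟩
    · obtain ⟨a, h, rfl⟩ := List.mem_map.1 ha'
      simp only [Finset.mem_toList, Finset.mem_filter, Finset.mem_univ, true_and] at h
      exact Or.inl ((ha 0 j a (by omega)).2 (h _ _))
    · exact hc1 j hj
    · by_cases hx : j < x.length
      · simpa only [inC2, Nat.blt_eq, Bool.cond_eq_ite, hx, if_true] using hc1 j hj
      · simp only [inC2, Nat.blt_eq, Bool.cond_eq_ite, hx, if_false, or_self_left]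
        cases h : asg (ix C T 0 j (cd aN))
        · exact Or.inl rfl
        · right
          rw [ha0 j _ (by omega)] at h
          rw [ha0 (j + 1) _ (by omega)]
          simp only [Option.map_eq_none_iff, List.getElem?_eq_none_iff] at h ⊢
          omega
    · obtain ⟨r, h, rfl⟩ := List.mem_map.1 hr
      simp only [Finset.mem_toList, Finset.mem_filter, Finset.mem_univ, true_and] at h
      have b1 := ha t (pos r.1 j) r.1.2.2 (by have := pos_le r.1 j; omega)
      have b2 := ha t (pos r.2.1 j) r.2.1.2.2 (by have := pos_le r.2.1 j; omega)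
      have b3 := ha (t + 1) (pos r.2.2 j) r.2.2.2.2 (by have := pos_le r.2.2 j; omega)
      rw [iterate_succ_apply'] at b3
      have b4 := h (M.step^[t] (initC z₀ k₀ ι (x ++ y))) j
      rw [← b1, ← b2, ← b3] at b4
      simp only [ruleCl, cl]
      unfold pos at b4
      by_contra hcon
      simp only [not_or, Bool.not_eq_false] at hcon
      exact hcon.2.2 (b4 hcon.1 hcon.2.1)
    · obtain ⟨o, h, rfl⟩ := List.mem_map.1 ha'
      simp only [Finset.mem_toList, Finset.mem_filter, Finset.mem_univ, true_and] at h
      left
      simp only [unitC]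
      rw [← Bool.not_eq_true, ha T 0 _ (by omega)]
      intro h'
      simp only [holds] at h'
      rw [h'] at hb
      exact hb h

end Pool.Agent.Shared.NP
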