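import Pool.Agent.Shared.NP.Defs
import Pool.Agent.Shared.NP.Tableau

/-!
The Cook-Levin theorem for Mathlib's TM2 machines, and the resulting criteria for NP-hardness and
membership in NP in terms of `PF`.
-/

set_option autoImplicit false

namespace Pool.Agent.Shared.NP

open Pool.Agent.Shared.PolyTime Function Turing Turing.TM2

section Sim

variable {K : Type} [DecidableEq K] {Γ : K → Type} {Λ σ : Type} [Fintype Λ]
  (m : Λ → Stmt Γ Λ σ) (k₀ : K) (inp : Bool → Γ k₀)

/-- number of elementary operations of a statement -/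
def depth : Stmt Γ Λ σ → ℕ
  | .push _ _ q => depth q + 1
  | .peek _ _ q => depth q + 1
  | .pop _ _ q => depth q + 1
  | .load _ q => depth q + 1
  | .branch _ q₁ q₂ => max (depth q₁) (depth q₂) + 1
  | .goto _ => 1
  | .halt => 1

/-- the relevant statements -/
abbrev StT : Type := {q : Option (Stmt Γ Λ σ) // q ∈ stmts m Finset.univ}

omit [DecidableEq K] in
theorem none_mem_stmts : none ∈ stmts m Finset.univ := by simp [stmts]

omit [DecidableEq K] in
theorem m_mem_stmts (l : Λ) : some (m l) ∈ stmts m Finset.univ := by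
  simp only [stmts, Finset.some_mem_insertNone, Finset.mem_biUnion]
  exact ⟨l, Finset.mem_univ _, stmts₁_self⟩

open Classical in
/-- total constructor -/
noncomputable def mkSt (q : Option (Stmt Γ Λ σ)) : StT m :=
  if h : q ∈ stmts m Finset.univ then ⟨q, h⟩ else ⟨none, none_mem_stmts m⟩

omit [DecidableEq K] in
theorem mkSt_val {q : Option (Stmt Γ Λ σ)} (h : q ∈ stmts m Finset.univ) : (mkSt m q).1 = q := by
  simp [mkSt, h]

/-- the symbol pushed by a statement -/
def pushed : Option (Stmt Γ Λ σ) → σ → Option (Σ k, Γ k)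
  | some (.push k f _), v => some ⟨k, f v⟩
  | _, _ => none

/-- meaning of the symbols -/
def val : Bool ⊕ (StT m × σ) → Option (Σ k, Γ k)
  | Sum.inl b => some ⟨k₀, inp b⟩
  | Sum.inr z => pushed z.1.1 z.2

open Classical in
/-- reading a symbol -/
noncomputable def rd (k : K) (o : Option (Bool ⊕ (StT m × σ))) : Option (Γ k) :=
  if h : ∃ g : Γ k, o.bind (val m k₀ inp) = some ⟨k, g⟩ then some h.choose else none

/-- relation between the stacks -/
def Rel (S : ∀ k, List (Γ k)) (S' : K → List (Bool ⊕ (StT m × σ))) : Prop :=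
  ∀ k, (S' k).map (val m k₀ inp) = (S k).map fun g => some ⟨k, g⟩

omit [DecidableEq K] in
theorem rd_head {S : ∀ k, List (Γ k)} {S' : K → List (Bool ⊕ (StT m × σ))}
    (h : Rel m k₀ inp S S') (k : K) : rd m k₀ inp k (S' k).head? = (S k).head? := by
  have h1 := h k
  rcases hS : S k with _ | ⟨g, l⟩ <;> rcases hS' : S' k with _ | ⟨a, l'⟩ <;>
    rw [hS, hS'] at h1 <;> simp only [List.map_nil, List.map_cons, reduceCtorEq,
      List.cons.injEq] at h1
  · simp [rd]
  · have hex : ∃ g : Γ k, (some a).bind (val m k₀ inp) = some ⟨k, g⟩ := ⟨g, h1.1⟩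
    have h2 : (some ⟨k, g⟩ : Option (Σ k, Γ k)) = some ⟨k, hex.choose⟩ :=
      h1.1.symm.trans hex.choose_spec
    rw [List.head?_cons, List.head?_cons, rd, dif_pos hex]
    exact congrArg some (sigma_mk_injective (Option.some.inj h2)).symm

/-- next state -/
noncomputable def nxt (z : StT m × σ) (o : Option (Bool ⊕ (StT m × σ))) :
    Option (Stmt Γ Λ σ) → StT m × σ
  | some (.push _ _ q) => (mkSt m (some q), z.2)
  | some (.peek k f q) => (mkSt m (some q), f z.2 (rd m k₀ inp k o))
  | some (.pop k f q) => (mkSt m (some q), f z.2 (rd m k₀ inp k o))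
  | some (.load a q) => (mkSt m (some q), a z.2)
  | some (.branch f q₁ q₂) => (mkSt m (some (cond (f z.2) q₁ q₂)), z.2)
  | some (.goto f) => (mkSt m (some (m (f z.2))), z.2)
  | some .halt => (mkSt m none, z.2)
  | none => z

/-- current stack -/
def cur : Option (Stmt Γ Λ σ) → K
  | some (.push k _ _) => k
  | some (.peek k _ _) => k
  | some (.pop k _ _) => k
  | _ => k₀

/-- stack operation -/
def opr (z : StT m × σ) : Option (Stmt Γ Λ σ) → Option (Option (Bool ⊕ (StT m × σ)))
  | some (.push _ _ _) => some (some (Sum.inr z))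
  | some (.pop _ _ _) => some none
  | _ => none

/-- the simulating machine -/
noncomputable def simM : AM (StT m × σ) K (Bool ⊕ (StT m × σ)) where
  δ := fun z o => nxt m k₀ inp z o z.1.1
  kk := fun z => cur k₀ z.1.1
  op := fun z => opr m z z.1.1

/-- the simulation relation -/
def Sim (c : Cfg Γ Λ σ) (d : (StT m × σ) × (K → List (Bool ⊕ (StT m × σ)))) : Prop :=
  d.1.1.1 = c.l.map m ∧ d.1.2 = c.var ∧ Rel m k₀ inp c.stk d.2

theorem micro : ∀ (q : Stmt Γ Λ σ) (v : σ) (S : ∀ k, List (Γ k))
    (d : (StT m × σ) × (K → List (Bool ⊕ (StT m × σ)))), d.1.1.1 = some q → d.1.2 = v →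
    Rel m k₀ inp S d.2 →
    ∃ n, n ≤ depth q ∧ Sim m k₀ inp (stepAux q v S) ((simM m k₀ inp).step^[n] d) := by
  intro q
  induction q with
  | push k f q ih =>
    intro v S d h1 h2 h3
    have hm : some q ∈ stmts m Finset.univ := by
      refine stmts_trans (q₂ := .push k f q) ?_ (h1 ▸ d.1.1.2)
      classical
      exact Finset.mem_insert_of_mem stmts₁_self
    obtain ⟨n, hn, hs⟩ := ih v (update S k (f v :: S k)) ((simM m k₀ inp).step d)
      (by simp [AM.step, simM, h1, nxt, mkSt_val m hm]) (by simp [AM.step, simM, h1, nxt, h2])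
      (by
        intro k'
        simp only [AM.step, AM.upd, simM, h1, opr, cur]
        by_cases hk : k' = k
        · subst hk
          simp [val, h1, pushed, h2, h3 k']
        · rw [update_of_ne hk, update_of_ne hk]
          exact h3 k')
    exact ⟨n + 1, by simp [depth, hn], hs⟩
  | peek k f q ih =>
    intro v S d h1 h2 h3
    have hm : some q ∈ stmts m Finset.univ := by
      refine stmts_trans (q₂ := .peek k f q) ?_ (h1 ▸ d.1.1.2)
      classical
      exact Finset.mem_insert_of_mem stmts₁_self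
    obtain ⟨n, hn, hs⟩ := ih (f v (S k).head?) S ((simM m k₀ inp).step d)
      (by simp [AM.step, simM, h1, nxt, mkSt_val m hm])
      (by simp [AM.step, simM, h1, nxt, h2, cur, rd_head m k₀ inp h3])
      (by simpa only [AM.step, AM.upd, simM, h1, opr] using h3)
    exact ⟨n + 1, by simp [depth, hn], hs⟩
  | pop k f q ih =>
    intro v S d h1 h2 h3
    have hm : some q ∈ stmts m Finset.univ := by
      refine stmts_trans (q₂ := .pop k f q) ?_ (h1 ▸ d.1.1.2)
      classical
      exact Finset.mem_insert_of_mem stmts₁_self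
    obtain ⟨n, hn, hs⟩ := ih (f v (S k).head?) (update S k (S k).tail) ((simM m k₀ inp).step d)
      (by simp [AM.step, simM, h1, nxt, mkSt_val m hm])
      (by simp [AM.step, simM, h1, nxt, h2, cur, rd_head m k₀ inp h3])
      (by
        intro k'
        simp only [AM.step, AM.upd, simM, h1, opr, cur]
        by_cases hk : k' = k
        · subst hk
          simp only [update_self, List.map_tail, h3 k']
        · rw [update_of_ne hk, update_of_ne hk]
          exact h3 k')
    exact ⟨n + 1, by simp [depth, hn], hs⟩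
  | load a q ih =>
    intro v S d h1 h2 h3
    have hm : some q ∈ stmts m Finset.univ := by
      refine stmts_trans (q₂ := .load a q) ?_ (h1 ▸ d.1.1.2)
      classical
      exact Finset.mem_insert_of_mem stmts₁_self
    obtain ⟨n, hn, hs⟩ := ih (a v) S ((simM m k₀ inp).step d)
      (by simp [AM.step, simM, h1, nxt, mkSt_val m hm])
      (by simp [AM.step, simM, h1, nxt, h2])
      (by simpa only [AM.step, AM.upd, simM, h1, opr] using h3)
    exact ⟨n + 1, by simp [depth, hn], hs⟩
  | branch f q₁ q₂ ih₁ ih₂ =>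
    intro v S d h1 h2 h3
    have hm1 : some q₁ ∈ stmts m Finset.univ := by
      refine stmts_trans (q₂ := .branch f q₁ q₂) ?_ (h1 ▸ d.1.1.2)
      classical
      exact Finset.mem_insert_of_mem (Finset.mem_union_left _ stmts₁_self)
    have hm2 : some q₂ ∈ stmts m Finset.univ := by
      refine stmts_trans (q₂ := .branch f q₁ q₂) ?_ (h1 ▸ d.1.1.2)
      classical
      exact Finset.mem_insert_of_mem (Finset.mem_union_right _ stmts₁_self)
    cases hf : f v
    · obtain ⟨n, hn, hs⟩ := ih₂ v S ((simM m k₀ inp).step d)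
        (by simp [AM.step, simM, h1, nxt, h2, hf, mkSt_val m hm2])
        (by simp [AM.step, simM, h1, nxt, h2])
        (by simpa only [AM.step, AM.upd, simM, h1, opr] using h3)
      refine ⟨n + 1, by simp only [depth]; omega, ?_⟩
      simpa [hf] using hs
    · obtain ⟨n, hn, hs⟩ := ih₁ v S ((simM m k₀ inp).step d)
        (by simp [AM.step, simM, h1, nxt, h2, hf, mkSt_val m hm1])
        (by simp [AM.step, simM, h1, nxt, h2])
        (by simpa only [AM.step, AM.upd, simM, h1, opr] using h3)
      refine ⟨n + 1, by simp only [depth]; omega, ?_⟩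
      simpa [hf] using hs
  | goto f =>
    intro v S d h1 h2 h3
    refine ⟨1, le_rfl, ?_, ?_, ?_⟩
    · simp [AM.step, simM, h1, nxt, h2, mkSt_val m (m_mem_stmts m _)]
    · simp [AM.step, simM, h1, nxt, h2]
    · simpa only [iterate_one, AM.step, AM.upd, simM, h1, opr, stepAux] using h3
  | halt =>
    intro v S d h1 h2 h3
    refine ⟨1, le_rfl, ?_, ?_, ?_⟩
    · simp [AM.step, simM, h1, nxt, mkSt_val m (none_mem_stmts m)]
    · simp [AM.step, simM, h1, nxt, h2]
    · simpa only [iterate_one, AM.step, AM.upd, simM, h1, opr, stepAux] using h3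

theorem sim_run (D : ℕ) (hD : ∀ l, depth (m l) ≤ D) (c : Cfg Γ Λ σ)
    (d : (StT m × σ) × (K → List (Bool ⊕ (StT m × σ)))) (h : Sim m k₀ inp c d) :
    ∀ (s : ℕ) (c' : Cfg Γ Λ σ), (flip bind (step m))^[s] (some c) = some c' →
      ∃ n, n ≤ D * s ∧ Sim m k₀ inp c' ((simM m k₀ inp).step^[n] d) := by
  intro s
  induction s with
  | zero =>
    intro c' h1
    simp only [iterate_zero, id, Option.some.injEq] at h1
    subst h1
    exact ⟨0, by simp, h⟩
  | succ s ih =>
    intro c' h1
    rw [iterate_succ_apply'] at h1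
    rcases h2 : (flip bind (step m))^[s] (some c) with _ | c₁
    · rw [h2] at h1
      simp [flip] at h1
    · rw [h2] at h1
      obtain ⟨n, hn, h3, h4, h5⟩ := ih c₁ h2
      rcases c₁ with ⟨_ | l, v, S⟩
      · simp [flip] at h1
      · simp only [flip, Option.bind_eq_bind, Option.bind_some, step, Option.some.injEq] at h1
        subst h1
        obtain ⟨n', hn', hs⟩ := micro m k₀ inp (m l) v S _ h3 h4 h5
        refine ⟨n' + n, ?_, by rwa [iterate_add_apply]⟩
        have := hD l
        rw [Nat.mul_succ]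
        omega

theorem sim_idle {c : Cfg Γ Λ σ} {d : (StT m × σ) × (K → List (Bool ⊕ (StT m × σ)))}
    (h : Sim m k₀ inp c d) (hc : c.l = none) (n : ℕ) : (simM m k₀ inp).step^[n] d = d := by
  refine iterate_fixed ?_ n
  have h1 := h.1
  rw [hc] at h1
  simp only [Option.map_none] at h1
  simp only [AM.step, AM.upd, simM, h1, nxt, opr]

end Sim

/-- Bit strings encoded as themselves. -/
structure Raw : Type where
  /-- the bits -/
  bits : List Bool

instance encRaw : Enc Raw := ⟨Raw.bits⟩

@[fun_prop] theorem PF_bits {α : Type} [Enc α] {f : α → Raw} (hf : PF f) :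
    PF (fun a => (f a).bits) := by
  refine PF.comp (f := Raw.bits) ?_ hf
  have h := PT.foldl_add (n := 1) (x := fun v => v 0) (a := fun _ => [])
    (h0 := fun w => w 0 ++ [true, false, false]) (h1 := fun w => w 0 ++ [true, false, true])
    (PT.var 0) PT.nil ((PT.var 0).append (PT.const _)) ((PT.var 0).append (PT.const _))
    ⟨3, fun v N _ acc y => by cases y <;> simp [PT.stepF]⟩
  refine ⟨fun x => x.foldl (fun acc b => acc ++ [true, false, b]) [], h.of_eq fun v => ?_,
    fun a => ?_⟩
  · congr 1
    funext acc y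
    cases y <;> simp [PT.stepF]
  · have key : ∀ (l acc : List Bool), l.foldl (fun acc b => acc ++ [true, false, b]) acc
        = acc ++ Enc.enc l := by
      intro l
      induction l with
      | nil => intro acc; simp [enc_nil]
      | cons b l ih => intro acc; simp [ih, enc_cons, enc_bool, encPair]
    exact (key a.bits []).trans (List.nil_append _)

theorem PF_poly {α : Type} [Enc α] {f : α → ℕ} (hf : PF f) (q : Polynomial ℕ) :
    PF (fun a => q.eval (f a)) := by
  obtain ⟨F, hF, sF⟩ := hf
  exact ⟨fun x => List.replicate (q.eval (F x).length) true, hF.polyU q, fun a => by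
    simp [sF, enc_nat]⟩

/-- The Cook-Levin theorem. -/
theorem cookLevin {I : Type} (e : I → List Bool) (Y : I → Prop) (h : InNP e Y) :
    ∃ F : Raw → CNF3, PF F ∧ ∀ i, Y i ↔ Sat3 (F ⟨e i⟩) := by
  classical
  obtain ⟨V, p, ⟨hV⟩, hY⟩ := h
  let _ := hV.tm.kFin
  let _ := hV.tm.ΛFin
  let _ := hV.tm.σFin
  let m := hV.tm.m
  let inp : Bool → hV.tm.Γ hV.tm.k₀ := hV.inputAlphabet.symm
  let D : ℕ := Finset.univ.sup fun l => depth (m l)
  have hD : ∀ l, depth (m l) ≤ D := fun l =>
    Finset.le_sup (f := fun l => depth (m l)) (Finset.mem_univ l)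
  obtain ⟨Φ, hΦ, hs⟩ := tableau (simM m hV.tm.k₀ inp)
    (mkSt m (some (m hV.tm.main)), hV.tm.initialState) hV.tm.k₀ hV.tm.k₁ Sum.inl
    (fun o => o.bind (val m hV.tm.k₀ inp) = some ⟨hV.tm.k₁, hV.outputAlphabet.symm false⟩)
  refine ⟨fun w => Φ (List.replicate w.bits.length true ++ false :: w.bits, p.eval w.bits.length,
    D * hV.time.eval (2 * w.bits.length + 1 + p.eval w.bits.length)), ?_, fun i => ?_⟩
  · have h1 : PF (fun w : Raw => p.eval w.bits.length) := PF_poly (by fun_prop) p
    have h2 : PF (fun w : Raw => hV.time.eval (2 * w.bits.length + 1 + p.eval w.bits.length)) :=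
      PF_poly (PF.add (by fun_prop) h1) _
    exact hΦ.comp (PF.pair (by fun_prop) (PF.pair h1 (PF.mul (PF.const _) h2)))
  · rw [hY, hs]
    refine exists_congr fun y => and_congr_right fun hy => ?_
    obtain ⟨⟨s, hs1⟩, hs2⟩ := hV.outputsFun (i, y)
    have e1 : (List.replicate (e i).length true ++ false :: e i) ++ y = encPair (e i) y := by
      simp [encPair]
    rw [e1]
    have h0 : Sim m hV.tm.k₀ inp (initList hV.tm ((encPair (e i) y).map hV.inputAlphabet.invFun))
        (initC (mkSt m (some (m hV.tm.main)), hV.tm.initialState) hV.tm.k₀ Sum.inl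
          (encPair (e i) y)) := by
      refine ⟨mkSt_val m (m_mem_stmts m _), rfl, fun k => ?_⟩
      by_cases hk : k = hV.tm.k₀
      · subst hk
        simp [initC, initList, val, inp]
      · simp [initC, initList, hk]
    obtain ⟨n, hn, h1⟩ := sim_run m hV.tm.k₀ inp D hD _ _ h0 s _ hs1
    have hlen : (encPair (e i) y).length ≤ 2 * (e i).length + 1 + p.eval (e i).length := by
      rw [length_encPair]; omega
    have hT : n ≤ D * hV.time.eval (2 * (e i).length + 1 + p.eval (e i).length) :=
      hn.trans (Nat.mul_le_mul_left D (hs2.trans (eval_mono _ hlen)))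
    obtain ⟨r, hr⟩ := Nat.exists_eq_add_of_le' hT
    rw [hr, iterate_add_apply, sim_idle m hV.tm.k₀ inp h1 rfl]
    have h2 := h1.2.2 hV.tm.k₁
    simp only [haltList, dite_true, List.map_cons, List.map_nil] at h2
    obtain ⟨a, l, h3, h4, -⟩ := List.map_eq_cons_iff.1 h2
    rw [h3]
    simp only [List.getElem?_cons_zero, Option.bind_some, h4, Option.some.injEq]
    cases hb : V (i, y)
    · simp
    · simp only [true_iff]
      intro h5
      have := hV.outputAlphabet.symm.injective (sigma_mk_injective h5)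
      exact absurd this (by simp)

/-- A polynomial-time reduction from 3-SAT proves NP-hardness. -/
theorem npHard_of_sat3 {β J : Type} [Enc β] (e : J → List Bool) (Y : J → Prop) (g : CNF3 → J)
    (g' : CNF3 → β) (hg : PF g') (he : ∀ φ, e (g φ) = Enc.enc (g' φ))
    (hY : ∀ φ, Sat3 φ ↔ Y (g φ)) : NPHard e Y := by
  intro L hL
  obtain ⟨F, hF, hs⟩ := cookLevin id L hL
  exact ⟨fun x => g (F ⟨x⟩), (hg.comp hF).tm2 id e _ Raw.mk (fun _ => rfl) (fun x => he _),
    fun x => (hs x).trans (hY _)⟩

/-- Membership in NP from a `PF` verifier. -/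
theorem inNP_of_pf {α I : Type} [Enc α] (e : I → List Bool) (Y : I → Prop) (d : I → α)
    (he : ∀ i, e i = Enc.enc (d i)) (V : α → List Bool → Bool)
    (hV : PF (fun p : α × List Bool => V p.1 p.2)) (p : Polynomial ℕ)
    (hY : ∀ i, Y i ↔ ∃ y : List Bool, y.length ≤ p.eval (e i).length ∧ V (d i) y = true) :
    InNP e Y := by
  have h : PF (fun q : α × Raw => V q.1 q.2.bits) :=
    hV.comp (g := fun q : α × Raw => (q.1, q.2.bits)) (by fun_prop)
  exact ⟨fun iy => V (d iy.1) iy.2, p, h.tm2 _ _ _ (fun iy => (d iy.1, ⟨iy.2⟩))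
    (fun iy => by rw [he]; rfl) (fun _ => rfl), hY⟩

end Pool.Agent.Shared.NP
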