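import Mathlib
import Pool.Agent.Shared.PolyTime.Enc

/-!
The classes NP, NP-hard and NP-complete, through Mathlib's polynomial-time TM2 machines.
A decision problem is a type `I` of instances, an encoding `e : I → List Bool` and the predicate
`Y` of the yes-instances.
-/

set_option autoImplicit false

namespace Pool.Agent.Shared.NP

open Pool.Agent.Shared.PolyTime

/-- `f` is computed in polynomial time by a deterministic Turing machine, on the encodings. -/
def PolyComputable {α β : Type} (ea : α → List Bool) (eb : β → List Bool) (f : α → β) : Prop :=
  Nonempty (Turing.TM2ComputableInPolyTime ea eb f)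

/-- The problem has a polynomial-time verifier with polynomially long binary certificates. -/
def InNP {I : Type} (e : I → List Bool) (Y : I → Prop) : Prop :=
  ∃ (V : I × List Bool → Bool) (p : Polynomial ℕ),
    PolyComputable (fun iy : I × List Bool => encPair (e iy.1) iy.2) (fun b : Bool => [b]) V ∧
    ∀ i : I, Y i ↔ ∃ y : List Bool, y.length ≤ p.eval (e i).length ∧ V (i, y) = true

/-- Every language of binary strings in NP has a polynomial-time many-one reduction to the
problem. -/
def NPHard {I : Type} (e : I → List Bool) (Y : I → Prop) : Prop :=
  ∀ L : List Bool → Prop, InNP id L →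
    ∃ f : List Bool → I, PolyComputable id e f ∧ ∀ x : List Bool, L x ↔ Y (f x)

/-- NP-complete. -/
def NPComplete {I : Type} (e : I → List Bool) (Y : I → Prop) : Prop :=
  InNP e Y ∧ NPHard e Y

end Pool.Agent.Shared.NP
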