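import Pool.Agent.Shared.NP.CookLevin

/-!
Polynomial-time machines are simulated at polynomial cost; so polynomial-time maps compose.
-/

set_option autoImplicit false

namespace Pool.Agent.Shared.NP

open Pool.Agent.Shared.PolyTime Function Turing Turing.TM2 Fintype

section

variable {Z K A : Type} [DecidableEq K] [Fintype Z] [Fintype K] [Fintype A] (M : AM Z K A)

/-- The table of a function on a finite type. -/
noncomputable def tab {B : Type} (f : Z → B) : List B := List.ofFn fun i => f ((equivFin Z).symm i)

theorem tab_getD {B : Type} (f : Z → B) (z : Z) (d : B) :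
    (tab f).getD (equivFin Z z) d = f z := by simp [tab]

/-- The code of a symbol. -/
noncomputable def cA (a : Option A) : ℕ := equivFin (Option A) a

/-- The code of a configuration. -/
noncomputable def cC (c : Z × (K → List A)) : ℕ × List (List ℕ) :=
  (equivFin Z c.1, tab fun k => (c.2 k).map fun a => cA (some a))

/-- One step on codes, from the tables. -/
def stC (kk : List ℕ) (δ pu : List (List ℕ)) (po : List Bool) (e : ℕ) (x : ℕ × List (List ℕ)) :
    ℕ × List (List ℕ) :=
  ((δ.getD x.1 []).getD ((x.2.getD (kk.getD x.1 0) []).headD e) 0,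
    x.2.take (kk.getD x.1 0) ++ (bif po.getD x.1 false then (x.2.getD (kk.getD x.1 0) []).tail
      else pu.getD x.1 [] ++ x.2.getD (kk.getD x.1 0) []) :: x.2.drop (kk.getD x.1 0 + 1))

theorem tab_set {B : Type} (f : K → B) (k : K) (b : B) :
    (tab f).take (equivFin K k) ++ b :: (tab f).drop (equivFin K k + 1) = tab (update f k b) := by
  have h := List.set_eq_take_append_cons_drop (l := tab f) (i := equivFin K k) (a := b)
  rw [if_pos (by simp [tab])] at h
  rw [← h]
  refine List.ext_getElem (by simp [tab]) fun i h1 h2 => ?_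
  simp only [tab, List.getElem_set, List.getElem_ofFn, update_apply, Equiv.symm_apply_eq,
    Fin.ext_iff, eq_comm (a := i)]

/-- The step on codes. -/
noncomputable def stM : ℕ × List (List ℕ) → ℕ × List (List ℕ) :=
  stC (tab fun z => equivFin K (M.kk z)) (tab fun z => tab fun o => equivFin Z (M.δ z o))
    (tab fun z => ((M.op z).bind id).toList.map fun a => cA (some a))
    (tab fun z => (M.op z).any (·.isNone)) (cA (none : Option A))

omit [DecidableEq K] in
theorem stM_pf : PF (stM M) := by
  unfold stM stC
  fun_prop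

theorem stM_cC (c : Z × (K → List A)) : stM M (cC c) = cC (M.step c) := by
  have h : ((c.2 (M.kk c.1)).map fun a => cA (some a)).headD (cA (none : Option A)) =
      equivFin (Option A) (c.2 (M.kk c.1)).head? := by cases c.2 (M.kk c.1) <;> rfl
  simp only [stM, stC, cC, tab_getD, tab_set, h, AM.step, AM.upd]
  congr 2
  funext k
  rcases M.op c.1 with _ | _ | b <;> by_cases hk : k = M.kk c.1 <;> simp [hk]

omit [Fintype Z] [Fintype K] [Fintype A] in
theorem len_step (c : Z × (K → List A)) (N j : ℕ) (h : ∀ k, (c.2 k).length ≤ N) (k : K) :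
    ((M.step^[j] c).2 k).length ≤ N + j := by
  induction j generalizing k with
  | zero => exact h k
  | succ j ih =>
    rw [iterate_succ_apply']
    have h1 := ih k
    generalize M.step^[j] c = d at h1
    simp only [AM.step, AM.upd]
    by_cases hk : k = M.kk d.1
    · subst hk
      rcases M.op d.1 with _ | _ | b <;> simp <;> omega
    · rcases M.op d.1 with _ | _ | b <;> simp [hk] <;> omega

omit [DecidableEq K] in
theorem len_cC (c : Z × (K → List A)) (N : ℕ) (h : ∀ k, (c.2 k).length ≤ N) :
    (Enc.enc (cC c)).length ≤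
      2 * card Z + 1 + card K * (2 * (N * (2 * card (Option A) + 1)) + 1) := by
  have h1 := len_le_mul (cC c).2 (N * (2 * card (Option A) + 1)) fun l hl => by
    obtain ⟨i, rfl⟩ := List.mem_ofFn.1 hl
    refine (len_le_mul _ (card (Option A)) fun a ha => ?_).trans
      (Nat.mul_le_mul_right _ (by simpa using h _))
    obtain ⟨b, -, rfl⟩ := List.mem_map.1 ha
    simpa [cA] using (equivFin (Option A) (some b)).2.le
  have h2 := (equivFin Z c.1).2
  have h3 : (cC c).2.length = card K := by simp [cC, tab]
  rw [h3] at h1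
  rw [show cC c = ((equivFin Z c.1 : ℕ), (cC c).2) from rfl, len_prod, len_nat]
  omega

theorem run_pf (z : Z) (k₀ k₁ : K) (inp : Bool → A) (out : A → Bool) (q : Polynomial ℕ) :
    PF fun w : Raw => ((M.step^[q.eval w.bits.length] (initC z k₀ inp w.bits)).2 k₁).map out := by
  have e0 : ∀ w : Raw, cC (initC z k₀ inp w.bits) = ((equivFin Z z : ℕ),
      (tab fun _ : K => ([] : List ℕ)).take (equivFin K k₀) ++ (w.bits.map fun b =>
        bif b then cA (some (inp true)) else cA (some (inp false))) ::
        (tab fun _ : K => ([] : List ℕ)).drop (equivFin K k₀ + 1)) := fun w => by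
    rw [tab_set]
    simp only [cC, initC]
    congr 2
    funext k
    by_cases hk : k = k₀ <;> simp [hk]
  have e1 : ∀ (w : Raw) (j : ℕ), (stM M)^[j] (cC (initC z k₀ inp w.bits)) =
      cC (M.step^[j] (initC z k₀ inp w.bits)) := fun w j =>
    (Semiconj.iterate_right (fun c => (stM_cC M c).symm) j _).symm
  have h1 : PF fun w : Raw => (stM M)^[q.eval w.bits.length] (cC (initC z k₀ inp w.bits)) := by
    refine PF.iterate (st := fun _ => stM M) (PF_poly (by fun_prop) q)
      (by simp only [e0]; fun_prop) ((stM_pf M).comp (by fun_prop))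
      ⟨Polynomial.C (2 * card Z + 1) + Polynomial.C (card K) * (2 * ((Polynomial.X + q) *
        Polynomial.C (2 * card (Option A) + 1)) + 1), fun w j hj => ?_⟩
    rw [e1]
    refine (len_cC _ (w.bits.length + q.eval w.bits.length) fun k =>
      (len_step M _ w.bits.length j (fun k => ?_) k).trans (by omega)).trans_eq (by simp; exact Or.inl rfl)
    by_cases hk : k = k₀ <;> simp [initC, hk]
  refine (PF.map (f := fun _ a => (tab fun o : Option A => o.any out).getD a false)
    (PF.getD h1.snd (PF.const (equivFin K k₁ : ℕ)) (PF.const [])) (by fun_prop)).of_eq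
    fun w => ?_
  rw [e1]
  simp only [cC, tab_getD, List.map_map]
  exact List.map_congr_left fun a _ => tab_getD _ (some a) _

end

/-- A polynomial-time machine is simulated at polynomial cost. -/
theorem PolyComputable.pf {α β : Type} {ea : α → List Bool} {eb : β → List Bool} {f : α → β}
    (h : PolyComputable ea eb f) : ∃ F : Raw → List Bool, PF F ∧ ∀ a, F ⟨ea a⟩ = eb (f a) := by
  classical
  obtain ⟨hV⟩ := h
  let _ := hV.tm.kFin
  let _ := hV.tm.ΛFin
  let _ := hV.tm.σFin
  let m := hV.tm.m
  let inp : Bool → hV.tm.Γ hV.tm.k₀ := hV.inputAlphabet.symm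
  let D : ℕ := Finset.univ.sup fun l => depth (m l)
  have hD : ∀ l, depth (m l) ≤ D := fun l =>
    Finset.le_sup (f := fun l => depth (m l)) (Finset.mem_univ l)
  refine ⟨_, run_pf (simM m hV.tm.k₀ inp) (mkSt m (some (m hV.tm.main)), hV.tm.initialState)
    hV.tm.k₀ hV.tm.k₁ Sum.inl (fun o => decide
      (val m hV.tm.k₀ inp o = some ⟨hV.tm.k₁, hV.outputAlphabet.symm true⟩)) (D * hV.time),
    fun a => ?_⟩
  obtain ⟨⟨s, hs1⟩, hs2⟩ := hV.outputsFun a
  have h0 : Sim m hV.tm.k₀ inp (initList hV.tm ((ea a).map hV.inputAlphabet.invFun))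
      (initC (mkSt m (some (m hV.tm.main)), hV.tm.initialState) hV.tm.k₀ Sum.inl (ea a)) := by
    refine ⟨mkSt_val m (m_mem_stmts m _), rfl, fun k => ?_⟩
    by_cases hk : k = hV.tm.k₀
    · subst hk
      simp [initC, initList, val, inp]
    · simp [initC, initList, hk]
  obtain ⟨n, hn, h1⟩ := sim_run m hV.tm.k₀ inp D hD _ _ h0 s _ hs1
  have hT : n ≤ (D * hV.time : Polynomial ℕ).eval (ea a).length := by
    simpa using hn.trans (Nat.mul_le_mul_left D hs2)
  obtain ⟨r, hr⟩ := Nat.exists_eq_add_of_le' hT
  dsimp only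
  rw [hr, iterate_add_apply, sim_idle m hV.tm.k₀ inp h1 rfl]
  have h2 := congrArg (List.map fun o =>
    decide (o = some ⟨hV.tm.k₁, hV.outputAlphabet.symm true⟩)) (h1.2.2 hV.tm.k₁)
  simp only [haltList, dite_true, List.map_map, eq_mpr_eq_cast, cast_eq] at h2
  refine h2.trans ((List.map_congr_left fun b _ => ?_).trans (List.map_id _))
  cases b <;> simp

end Pool.Agent.Shared.NP
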